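import Mathlib
import Pool.Agent.Helper877.Cov.Main

/-!
# Conjugate coverings by an abelian subgroup
-/

set_option autoImplicit false

namespace Pool.Agent.Results.MP_1307d3_al.PerfectDerived

open Pool.Agent.Helper877.Cov

/-- Let `A` be a proper abelian subgroup of a group `G` of prime exponent `p` (locally finite or not)
whose conjugates cover `G`. Then `p ≥ 5`, the derived subgroup of `G` is nontrivial and perfect
(`G'' = G' ≠ 1`), `G = A G⁽ⁿ⁾` for every `n`, and `G` is not residually finite. Moreover, in an arbitrary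
group `G` (no exponent), if the conjugates of an abelian subgroup `A` cover `G` and `G` is residually
soluble, then `A = G`. -/
theorem result :
    (∀ (p : ℕ), p.Prime → ∀ (G : Type) [Group G], (∀ g : G, g ^ p = 1) → ∀ A : Subgroup G,
      (∀ a ∈ A, ∀ b ∈ A, a * b = b * a) → A ≠ ⊤ → (∀ x : G, ∃ g : G, g * x * g⁻¹ ∈ A) →
      5 ≤ p ∧ derivedSeries G 2 = derivedSeries G 1 ∧ derivedSeries G 1 ≠ ⊥ ∧
      (∀ n, A ⊔ derivedSeries G n = ⊤) ∧
      ¬ (∀ g : G, g ≠ 1 → ∃ N : Subgroup G, N.Normal ∧ N.FiniteIndex ∧ g ∉ N)) ∧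
    (∀ (G : Type) [Group G] (A : Subgroup G), (∀ a ∈ A, ∀ b ∈ A, a * b = b * a) →
      (∀ x : G, ∃ g : G, g * x * g⁻¹ ∈ A) →
      (∀ g : G, g ≠ 1 → ∃ N : Subgroup G, ∃ _ : N.Normal, g ∉ N ∧ Group.IsSolvable (G ⧸ N)) → A = ⊤) :=
  ⟨fun p hp G _ hexp A hA hprop hcov => main p hp G hexp A hA hprop hcov,
    fun G _ A hA hcov hres => covers_residually_soluble G A hcov hA hres⟩

end Pool.Agent.Results.MP_1307d3_al.PerfectDerived
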